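import Pool.Agent.Helper59.CPS.V
import Pool.Agent.Helper60.CP.Stm3

/-!
# The volume bound for the quaternionic case of `S^(4n)` (part 4V)

Adapted from `Pool.Agent.Helper59.CPS.V` (the case of `S^(2n)`).
-/

set_option autoImplicit false

open Real Set MeasureTheory
open scoped ContDiff

namespace Pool.Agent.Helper65.CPR

open Pool.Agent.Helper60.CP
open Pool.Agent.Helper59.CPS
open Pool.Agent.H206R2.Rot2 (Veff)
open Pool.Agent.H206R2.Rot2.TI (gg gg_measurable gg_nonneg gg_bound gg_integrable gg_integral SC SC_one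
  SC_left beta_id)

lemma ind_integrable2 (s : ℝ) (b : ℕ) :
    Integrable ((Dsk s).indicator (fun c : ℝ × ℝ => c.1 ^ 2 * c.2 ^ b)) := by
  rw [integrable_indicator_iff (Dsk_measurable s)]
  have h1 : IntegrableOn (fun c : ℝ × ℝ => c.1 ^ 2 * c.2 ^ b) (Icc (0 : ℝ) s ×ˢ Icc (0 : ℝ) s) :=
    (Continuous.continuousOn (by fun_prop)).integrableOn_compact (isCompact_Icc.prod isCompact_Icc)
  exact h1.mono_set (Dsk_subset_Icc s)

lemma inner_dsk2 {s : ℝ} (hs : 0 < s) (m : ℕ) (x : ℝ) :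
    ∫ y, (Dsk s).indicator (fun c : ℝ × ℝ => c.1 ^ 2 * c.2 ^ (2 * m + 1)) (x, y) =
      (Ioo 0 s).indicator (fun x => x ^ 2 * (s ^ 2 - x ^ 2) ^ (m + 1) / (2 * ((m : ℝ) + 1))) x := by
  have e : (fun y : ℝ => (Dsk s).indicator (fun c : ℝ × ℝ => c.1 ^ 2 * c.2 ^ (2 * m + 1)) (x, y)) =
      fun y => x ^ 2 * (Dsk s).indicator (fun c : ℝ × ℝ => c.2 ^ (2 * m + 1)) (x, y) := by
    funext y
    by_cases h : (x, y) ∈ Dsk s
    · rw [indicator_of_mem h, indicator_of_mem h]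
    · rw [indicator_of_notMem h, indicator_of_notMem h, mul_zero]
  rw [e, integral_const_mul, inner_dsk hs m x]
  by_cases hx : x ∈ Ioo 0 s
  · rw [indicator_of_mem hx, indicator_of_mem hx]
    ring
  · rw [indicator_of_notMem hx, indicator_of_notMem hx, mul_zero]

/-- `∫ u² (1-u²)^(m+1)` over `[0,1]` -/
lemma Q_eq (m : ℕ) : ∫ u in (0 : ℝ)..1, u ^ 2 * (1 - u ^ 2) ^ (m + 1) =
    (∫ t in (0 : ℝ)..π, Real.sin t ^ (2 * m + 5)) / (4 * ((m : ℝ) + 2)) := by
  have hd : ∀ u : ℝ, HasDerivAt (fun u : ℝ => u * (1 - u ^ 2) ^ (m + 2))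
      ((1 - u ^ 2) ^ (m + 2) - 2 * ((m : ℝ) + 2) * (u ^ 2 * (1 - u ^ 2) ^ (m + 1))) u := by
    intro u
    have h1 : HasDerivAt (fun u : ℝ => 1 - u ^ 2) (-(2 * u)) u := by
      refine ((hasDerivAt_pow 2 u).const_sub 1).congr_deriv ?_
      norm_num
    refine ((hasDerivAt_id u).mul (h1.pow (m + 2))).congr_deriv ?_
    simp only [id, Pi.pow_apply]
    rw [show m + 2 - 1 = m + 1 by omega]
    push_cast
    ring
  have h := intervalIntegral.integral_eq_sub_of_hasDerivAt (a := 0) (b := 1) (fun t _ => hd t)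
    (Continuous.intervalIntegrable (by fun_prop) _ _)
  rw [intervalIntegral.integral_sub (Continuous.intervalIntegrable (by fun_prop) _ _)
    (Continuous.intervalIntegrable (by fun_prop) _ _), intervalIntegral.integral_const_mul] at h
  have h2 := J_eq (m + 1)
  rw [show 2 * (m + 1) + 3 = 2 * m + 5 by ring, show m + 1 + 1 = m + 2 by ring] at h2
  rw [h2] at h
  have h3 : (m : ℝ) + 2 ≠ 0 := by positivity
  rw [eq_div_iff (by positivity)]
  have h4 : (1 : ℝ) * (1 - 1 ^ 2) ^ (m + 2) - 0 * (1 - 0 ^ 2) ^ (m + 2) = 0 := by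
    norm_num
  rw [h4] at h
  linarith

lemma scale_int2 {s : ℝ} (hs : 0 < s) (m : ℕ) :
    ∫ x in (0 : ℝ)..s, x ^ 2 * (s ^ 2 - x ^ 2) ^ (m + 1) =
      s ^ (2 * m + 5) * ∫ u in (0 : ℝ)..1, u ^ 2 * (1 - u ^ 2) ^ (m + 1) := by
  have h1 := intervalIntegral.integral_comp_mul_left (a := (0 : ℝ)) (b := 1)
    (fun x : ℝ => x ^ 2 * (s ^ 2 - x ^ 2) ^ (m + 1)) hs.ne'
  rw [mul_zero, mul_one, smul_eq_mul] at h1
  have h2 : (fun u : ℝ => (s * u) ^ 2 * (s ^ 2 - (s * u) ^ 2) ^ (m + 1)) =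
      fun u => s ^ (2 * m + 4) * (u ^ 2 * (1 - u ^ 2) ^ (m + 1)) := by
    funext u
    have e : s ^ 2 - (s * u) ^ 2 = s ^ 2 * (1 - u ^ 2) := by ring
    rw [e, mul_pow (s ^ 2)]
    ring
  rw [h2, intervalIntegral.integral_const_mul] at h1
  have h3 : ∫ x in (0 : ℝ)..s, x ^ 2 * (s ^ 2 - x ^ 2) ^ (m + 1) =
      s * (s⁻¹ * ∫ x in (0 : ℝ)..s, x ^ 2 * (s ^ 2 - x ^ 2) ^ (m + 1)) := by
    rw [← mul_assoc, mul_inv_cancel₀ hs.ne', one_mul]
  rw [h3, ← h1]
  ring

lemma Dsk_int2 {s : ℝ} (hs : 0 < s) (m : ℕ) :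
    ∫ c in Dsk s, c.1 ^ 2 * c.2 ^ (2 * m + 1) =
      s ^ (2 * m + 5) * (∫ t in (0 : ℝ)..π, Real.sin t ^ (2 * m + 5)) /
        (8 * ((m : ℝ) + 1) * ((m : ℝ) + 2)) := by
  rw [← integral_indicator (Dsk_measurable s)]
  have hi := ind_integrable2 s (2 * m + 1)
  rw [Measure.volume_eq_prod] at hi ⊢
  rw [integral_prod _ hi]
  simp_rw [inner_dsk2 hs m]
  rw [integral_indicator measurableSet_Ioo, ← integral_Ioc_eq_integral_Ioo,
    ← intervalIntegral.integral_of_le (by positivity), intervalIntegral.integral_div,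
    scale_int2 hs m, Q_eq m]
  have h4 : (m : ℝ) + 1 ≠ 0 := by positivity
  have h5 : (m : ℝ) + 2 ≠ 0 := by positivity
  field_simp
  ring

/-- The integral of `(R - K) c₁² c₂^(2m+1)` over the quarter disk. -/
lemma lower_intD2 {R : ℝ} (hR : 0 < R) (m : ℕ) :
    ∫ c in Dsk R, (R - KK c) * (c.1 ^ 2 * c.2 ^ (2 * m + 1)) =
      R ^ (2 * m + 6) * (∫ t in (0 : ℝ)..π, Real.sin t ^ (2 * m + 5)) /
        (16 * ((m : ℝ) + 1) * ((m : ℝ) + 2) * ((m : ℝ) + 3)) := by
  set W := ∫ t in (0 : ℝ)..π, Real.sin t ^ (2 * m + 5) with hW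
  set G : ℝ → ℝ × ℝ → ℝ := fun s c => (Dsk s).indicator (fun c : ℝ × ℝ => c.1 ^ 2 * c.2 ^ (2 * m + 1)) c with hG
  -- layer cake
  have e1 : ∀ c ∈ Dsk R, ∫ s in Ioo 0 R, G s c = (R - KK c) * (c.1 ^ 2 * c.2 ^ (2 * m + 1)) := by
    intro c hc
    have hk : 0 ≤ KK c := KK_nonneg c
    have e2 : ∀ s : ℝ, G s c = (Ioi (KK c)).indicator (fun _ => c.1 ^ 2 * c.2 ^ (2 * m + 1)) s := by
      intro s
      simp only [hG]
      by_cases h : KK c < s
      · rw [indicator_of_mem (show c ∈ Dsk s from ⟨hc.1, hc.2.1, h⟩), indicator_of_mem (mem_Ioi.2 h)]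
      · rw [indicator_of_notMem (fun h' : c ∈ Dsk s => h h'.2.2), indicator_of_notMem (fun h' => h (mem_Ioi.1 h'))]
    simp_rw [e2]
    rw [setIntegral_indicator measurableSet_Ioi]
    have e3 : Ioo 0 R ∩ Ioi (KK c) = Ioo (KK c) R := by
      ext x
      simp only [mem_inter_iff, mem_Ioo, mem_Ioi]
      constructor
      · rintro ⟨⟨_, h2⟩, h3⟩
        exact ⟨h3, h2⟩
      · rintro ⟨h1, h2⟩
        exact ⟨⟨lt_of_le_of_lt hk h1, h2⟩, h1⟩
    rw [e3, setIntegral_const, Real.volume_real_Ioo_of_le hc.2.2.le, smul_eq_mul]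
  have hmeas : Measurable (fun p : (ℝ × ℝ) × ℝ => G p.2 p.1) := by
    have e4 : (fun p : (ℝ × ℝ) × ℝ => G p.2 p.1) =
        ({p : (ℝ × ℝ) × ℝ | 0 < p.1.1 ∧ 0 < p.1.2 ∧ KK p.1 < p.2}).indicator
          (fun p => p.1.1 ^ 2 * p.1.2 ^ (2 * m + 1)) := by
      funext p
      simp only [hG]
      by_cases h : p.1 ∈ Dsk p.2
      · rw [indicator_of_mem h, indicator_of_mem (show p ∈ {p : (ℝ × ℝ) × ℝ | 0 < p.1.1 ∧ 0 < p.1.2 ∧
          KK p.1 < p.2} from h)]
      · rw [indicator_of_notMem h, indicator_of_notMem (show p ∉ {p : (ℝ × ℝ) × ℝ | 0 < p.1.1 ∧ 0 < p.1.2 ∧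
          KK p.1 < p.2} from h)]
    rw [e4]
    apply Measurable.indicator (by fun_prop)
    have o1 : IsOpen {p : (ℝ × ℝ) × ℝ | 0 < p.1.1} := isOpen_lt continuous_const (by fun_prop)
    have o2 : IsOpen {p : (ℝ × ℝ) × ℝ | 0 < p.1.2} := isOpen_lt continuous_const (by fun_prop)
    have o3 : IsOpen {p : (ℝ × ℝ) × ℝ | KK p.1 < p.2} :=
      isOpen_lt (KK_cont.comp continuous_fst) (by fun_prop)
    exact (o1.inter (o2.inter o3)).measurableSet
  set μ : Measure ℝ := volume.restrict (Ioo 0 R) with hμ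
  set ν : Measure (ℝ × ℝ) := volume.restrict (Dsk R) with hν
  have : IsFiniteMeasure ν := ⟨by rw [hν, Measure.restrict_apply_univ]; exact lt_top_iff_ne_top.2 (Dsk_finite R)⟩
  have : IsFiniteMeasure μ := ⟨by rw [hμ, Measure.restrict_apply_univ]; simp⟩
  have hint : Integrable (fun p : (ℝ × ℝ) × ℝ => G p.2 p.1) (ν.prod μ) := by
    have hb : ∀ᵐ p ∂(ν.prod μ), ‖G p.2 p.1‖ ≤ R ^ 2 * R ^ (2 * m + 1) := by
      have e : ν.prod μ = (volume.prod volume).restrict (Dsk R ×ˢ Ioo 0 R) := by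
        rw [hμ, hν, Measure.prod_restrict]
      rw [e]
      filter_upwards [ae_restrict_mem ((Dsk_measurable R).prod measurableSet_Ioo)] with p hp
      have h1 := (Dsk_subset_Icc R) hp.1
      simp only [hG]
      by_cases h : p.1 ∈ Dsk p.2
      · rw [indicator_of_mem h, Real.norm_eq_abs,
          abs_of_nonneg (mul_nonneg (pow_nonneg h1.1.1 _) (pow_nonneg h1.2.1 _))]
        exact mul_le_mul (pow_le_pow_left₀ h1.1.1 h1.1.2 _) (pow_le_pow_left₀ h1.2.1 h1.2.2 _)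
          (pow_nonneg h1.2.1 _) (by positivity)
      · rw [indicator_of_notMem h, norm_zero]
        positivity
    exact Integrable.of_bound hmeas.aestronglyMeasurable _ hb
  have hswap := integral_integral_swap (f := fun c s => G s c) (μ := ν) (ν := μ) hint
  have e5 : ∫ c in Dsk R, (R - KK c) * (c.1 ^ 2 * c.2 ^ (2 * m + 1)) = ∫ c, ∫ s, G s c ∂μ ∂ν := by
    rw [hν]
    apply setIntegral_congr_fun (Dsk_measurable R)
    intro c hc
    exact (e1 c hc).symm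
  rw [e5, hswap]
  have e6 : ∫ s, ∫ c, G s c ∂ν ∂μ =
      ∫ s in Ioo 0 R, s ^ (2 * m + 5) * W / (8 * ((m : ℝ) + 1) * ((m : ℝ) + 2)) := by
    rw [hμ]
    apply setIntegral_congr_fun measurableSet_Ioo
    intro s hs
    simp only [hG]
    rw [hν, setIntegral_indicator (Dsk_measurable s)]
    have e7 : Dsk R ∩ Dsk s = Dsk s := by
      apply inter_eq_right.2
      intro c hc
      exact ⟨hc.1, hc.2.1, hc.2.2.trans hs.2⟩
    rw [e7, Dsk_int2 hs.1 m]
  rw [e6, ← integral_Ioc_eq_integral_Ioo, ← intervalIntegral.integral_of_le hR.le,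
    intervalIntegral.integral_div, intervalIntegral.integral_mul_const, integral_pow]
  rw [zero_pow (by omega), sub_zero]
  push_cast
  have h3 : (m : ℝ) + 2 ≠ 0 := by positivity
  have h4 : (m : ℝ) + 1 ≠ 0 := by positivity
  have h5 : 2 * (m : ℝ) + 5 + 1 ≠ 0 := by positivity
  have h6 : (m : ℝ) + 3 ≠ 0 := by positivity
  field_simp
  ring

/-! ### The theorem -/

theorem t_4V : S4_V := by
  intro L R f h n hn hL hR hfc hhc hfpos hhpos hbig hA
  obtain ⟨m', rfl⟩ := Nat.exists_eq_add_of_le' hn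
  obtain ⟨m, hm⟩ : ∃ m, m = 2 * m' + 1 := ⟨_, rfl⟩
  set b : ℕ := 2 * m + 1 with hb
  have hb2 : 4 * (m' + 2) - 4 = b + 1 := by omega
  have hb3 : 4 * (m' + 2) - 1 = 2 * m + 5 := by omega
  rw [hb2, hb3, show 4 * (m' + 2) = 2 * m + 6 by omega]
  have hfm : Measurable f := hfc.measurable
  have hhm : Measurable h := hhc.measurable
  set J1 := ∫ x in (0 : ℝ)..1, √(1 - x ^ 2) * x ^ b with hJ1
  set K := J1 * SC 2 (b + 3) with hK
  set μ : Measure ℝ := volume.restrict (Ioo 0 L) with hμ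
  set ν : Measure (ℝ × ℝ) := volume.restrict (Dsk R) with hν
  have : IsFiniteMeasure ν := ⟨by rw [hν, Measure.restrict_apply_univ]; exact lt_top_iff_ne_top.2 (Dsk_finite R)⟩
  have : IsFiniteMeasure μ := ⟨by rw [hμ, Measure.restrict_apply_univ]; simp⟩
  -- Fubini
  have hmeas : Measurable (fun p : ℝ × (ℝ × ℝ) => gg (f p.1) (h p.1) 2 b p.2) := by
    unfold gg
    fun_prop
  have hint : Integrable (fun p : ℝ × (ℝ × ℝ) => gg (f p.1) (h p.1) 2 b p.2) (μ.prod ν) := by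
    have hb : ∀ᵐ p ∂(μ.prod ν), ‖gg (f p.1) (h p.1) 2 b p.2‖ ≤ R ^ 2 * R ^ b := by
      have e : μ.prod ν = (volume.prod volume).restrict (Ioo 0 L ×ˢ Dsk R) := by
        rw [hμ, hν, Measure.prod_restrict]
      rw [e]
      filter_upwards [ae_restrict_mem (measurableSet_Ioo.prod (Dsk_measurable R))] with p hp
      have h1 := (Dsk_subset_Icc R) hp.2
      exact gg_bound 2 b hp.2.1 hp.2.2.1 h1.1.2 h1.2.2
    exact Integrable.of_bound hmeas.aestronglyMeasurable _ hb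
  have hswap := integral_integral_swap (f := fun r c => gg (f r) (h r) 2 b c) (μ := μ) (ν := ν) hint
  -- lower bound
  have hact : ∀ c : ℝ × ℝ, (2 * ∫ r in Ioo 0 L, √(1 - Veff f h c.1 c.2 r)) * (c.1 ^ 2 * c.2 ^ b) =
      2 * ∫ r, gg (f r) (h r) 2 b c ∂μ := by
    intro c
    rw [mul_assoc, ← integral_mul_const]
    rfl
  set W := ∫ t in (0 : ℝ)..π, Real.sin t ^ (2 * m + 5) with hW
  have h1 : 2 * π * (R ^ (2 * m + 6) * W / (16 * ((m : ℝ) + 1) * ((m : ℝ) + 2) * ((m : ℝ) + 3))) ≤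
      2 * ∫ c, ∫ r, gg (f r) (h r) 2 b c ∂μ ∂ν := by
    rw [hW, ← lower_intD2 hR m, ← integral_const_mul, ← integral_const_mul]
    apply setIntegral_mono_on _ _ (Dsk_measurable R)
    · intro c hc
      rw [← hact]
      have h2 : 2 * π * ((R - KK c) * (c.1 ^ 2 * c.2 ^ (2 * m + 1))) =
          2 * π * (R - KK c) * (c.1 ^ 2 * c.2 ^ b) := by rw [hb]; ring
      rw [h2]
      apply mul_le_mul_of_nonneg_right (hA c hc)
      have := hc.1
      have := hc.2.1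
      positivity
    · have hKc := KK_cont
      have h2 : IntegrableOn (fun c : ℝ × ℝ => 2 * π * ((R - KK c) * (c.1 ^ 2 * c.2 ^ (2 * m + 1))))
          (Icc (0 : ℝ) R ×ˢ Icc (0 : ℝ) R) :=
        (Continuous.continuousOn (by fun_prop)).integrableOn_compact (isCompact_Icc.prod isCompact_Icc)
      exact h2.mono_set (Dsk_subset_Icc R)
    · exact (hint.integral_prod_right).const_mul 2
  rw [← hswap] at h1
  -- comparison
  have hIm : Integrable (fun r => ∫ c, gg (f r) (h r) 2 b c ∂ν) μ := hint.integral_prod_left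
  have hfi : Integrable (fun r => f r ^ (2 + 1) * h r ^ (b + 1) * K) μ := by
    have h3 : IntegrableOn (fun r => f r ^ (2 + 1) * h r ^ (b + 1) * K) (Icc 0 L) :=
      (Continuous.continuousOn (by fun_prop)).integrableOn_Icc
    exact h3.mono_set Ioo_subset_Icc_self
  have h3 : ∫ r, ∫ c, gg (f r) (h r) 2 b c ∂ν ∂μ < ∫ r, f r ^ (2 + 1) * h r ^ (b + 1) * K ∂μ := by
    rw [← sub_pos, ← integral_sub hfi hIm]
    rw [integral_pos_iff_support_of_nonneg_ae]
    · obtain ⟨r₀, ⟨hr0, hrL⟩, hrR⟩ := hbig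
      have hopen : IsOpen (Ioo 0 L ∩ {r | R < h r}) := isOpen_Ioo.inter (isOpen_lt continuous_const hhc)
      have hpos : 0 < volume (Ioo 0 L ∩ {r | R < h r}) :=
        hopen.measure_pos volume ⟨r₀, ⟨hr0, hrL⟩, hrR⟩
      have hμpos : 0 < μ (Ioo 0 L ∩ {r | R < h r}) := by
        rw [hμ, Measure.restrict_apply hopen.measurableSet]
        have : Ioo 0 L ∩ {r | R < h r} ∩ Ioo 0 L = Ioo 0 L ∩ {r | R < h r} := by
          ext x; simp; tauto
        rwa [this]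
      refine hμpos.trans_le (measure_mono ?_)
      intro r hr
      rw [Function.mem_support]
      have h5 := ggD_lt (hfpos r hr.1) (hR.trans hr.2) hR hr.2 2 b
      exact (sub_pos.mpr h5).ne'
    · have hae : ∀ᵐ r ∂μ, r ∈ Ioo 0 L := ae_restrict_mem measurableSet_Ioo
      filter_upwards [hae] with r hr
      have h5 := ggD_le (R := R) (hfpos r hr) (hhpos r hr) 2 b
      simp only [Pi.zero_apply]
      exact sub_nonneg.2 h5
    · exact hfi.sub hIm
  have h4 : ∫ r, f r ^ (2 + 1) * h r ^ (b + 1) * K ∂μ = K * ∫ r in (0 : ℝ)..L, f r ^ 3 * h r ^ (b + 1) := by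
    rw [integral_mul_const, intervalIntegral.integral_of_le hL.le, hμ,
      integral_Ioc_eq_integral_Ioo, mul_comm]
  -- constants
  have hid := beta_id 2 b
  have hB : J1 = (1 / ((b : ℝ) + 2)) * ∫ x in (0 : ℝ)..(π / 2), Real.sin x ^ b :=
    Pool.Agent.H206R2.Rot.TE.B_eq b
  have hSC3 : SC 3 (b + 1) = 2 / (((b : ℝ) + 4) * ((b : ℝ) + 2)) := by
    have h5 := SC_left 1 (b + 1)
    rw [SC_one] at h5
    push_cast at h5
    have h6 : (b : ℝ) + 4 ≠ 0 := by positivity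
    have h7 : (b : ℝ) + 2 ≠ 0 := by positivity
    have h8 : (b : ℝ) + 1 + 1 ≠ 0 := by positivity
    rw [eq_div_iff (by positivity)]
    field_simp at h5
    linear_combination h5
  rw [← hB, ← hK, show 2 + 1 = 3 by norm_num, hSC3] at hid
  have hbR : (b : ℝ) = 2 * m + 1 := by rw [hb]; push_cast; ring
  have hKv : 2 * K = π / (8 * ((m : ℝ) + 1) * ((m : ℝ) + 2) * ((m : ℝ) + 3)) := by
    have h5 : ((2 + b + 3).factorial : ℝ) = ((b : ℝ) + 5) * ((b : ℝ) + 4) * ((b : ℝ) + 3) *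
        ((b : ℝ) + 2) * ((b : ℝ) + 1) * b.factorial := by
      rw [show 2 + b + 3 = b + 1 + 1 + 1 + 1 + 1 by ring, Nat.factorial_succ, Nat.factorial_succ,
        Nat.factorial_succ, Nat.factorial_succ, Nat.factorial_succ]
      push_cast
      ring
    rw [h5] at hid
    have hf : (b.factorial : ℝ) ≠ 0 := by positivity
    have hf2 : ((2 : ℕ).factorial : ℝ) = 2 := by norm_num [Nat.factorial]
    rw [hf2] at hid
    have h6 : (b : ℝ) + 1 ≠ 0 := by positivity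
    have h7 : (b : ℝ) + 2 ≠ 0 := by positivity
    have h8 : (b : ℝ) + 3 ≠ 0 := by positivity
    have h9 : (b : ℝ) + 4 ≠ 0 := by positivity
    have h10 : (b : ℝ) + 5 ≠ 0 := by positivity
    have h11 : 2 * K = π / (((b : ℝ) + 1) * ((b : ℝ) + 3) * ((b : ℝ) + 5)) := by
      rw [eq_div_iff (by positivity)]
      field_simp at hid
      linear_combination hid
    rw [h11, hbR]
    congr 1
    ring
  have hπ := Real.pi_pos
  have hKpos : 0 < K := by
    have : 0 < 2 * K := by rw [hKv]; positivity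
    linarith
  rw [h4] at h3
  set I := ∫ r in (0 : ℝ)..L, f r ^ 3 * h r ^ (b + 1) with hI
  have h7 : 2 * π * (R ^ (2 * m + 6) * W / (16 * ((m : ℝ) + 1) * ((m : ℝ) + 2) * ((m : ℝ) + 3))) < 2 * K * I := by
    calc _ ≤ _ := h1
      _ < 2 * (K * I) := by linarith
      _ = _ := by ring
  rw [hKv] at h7
  have h8 : (0 : ℝ) < π / (8 * ((m : ℝ) + 1) * ((m : ℝ) + 2) * ((m : ℝ) + 3)) := by positivity
  have h9 : π / (8 * ((m : ℝ) + 1) * ((m : ℝ) + 2) * ((m : ℝ) + 3)) * (R ^ (2 * m + 6) * W) <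
      π / (8 * ((m : ℝ) + 1) * ((m : ℝ) + 2) * ((m : ℝ) + 3)) * I := by
    calc _ = 2 * π * (R ^ (2 * m + 6) * W / (16 * ((m : ℝ) + 1) * ((m : ℝ) + 2) * ((m : ℝ) + 3))) := by
          have h6 : (m : ℝ) + 1 ≠ 0 := by positivity
          have h7 : (m : ℝ) + 2 ≠ 0 := by positivity
          have h10 : (m : ℝ) + 3 ≠ 0 := by positivity
          field_simp
          ring
      _ < π / (8 * ((m : ℝ) + 1) * ((m : ℝ) + 2) * ((m : ℝ) + 3)) * I := h7
  exact lt_of_mul_lt_mul_left h9 h8.le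

end Pool.Agent.Helper65.CPR
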