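import Pool.Agent.Helper60.CP.Stm2

/-!
# The periodic geodesics of the Fubini-Study metric have length at least `π`
-/

set_option autoImplicit false

open Real Set MeasureTheory
open scoped ContDiff LinearAlgebra.Projectivization

namespace Pool.Agent.Helper65.CPR

open Pool.Agent.Helper60.CP

/-- A complex solution of `g'' = -v² g` with `g(0) = 1`, `g'(0) = 0` and `|g(T)| = 1`. -/
lemma osc_end {v T : ℝ} (hv : 0 < v) (hT : 0 < T) {g g' : ℝ → ℂ}
    (h1 : ∀ t, HasDerivAt g (g' t) t) (h2 : ∀ t, HasDerivAt g' (-(v : ℂ) ^ 2 * g t) t)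
    (h0 : g 0 = 1) (h0' : g' 0 = 0) (hn : ‖g T‖ = 1) : π ≤ v * T := by
  have hvc : (v : ℂ) ≠ 0 := by exact_mod_cast hv.ne'
  have hvt : ∀ t, HasDerivAt (fun t : ℝ => v * t) v t := fun t => by
    simpa using (hasDerivAt_id t).const_mul v
  have hcos : ∀ t, HasDerivAt (fun t : ℝ => ((Real.cos (v * t) : ℝ) : ℂ))
      ((-Real.sin (v * t) * v : ℝ) : ℂ) t := fun t => (hvt t).cos.ofReal_comp
  have hsin : ∀ t, HasDerivAt (fun t : ℝ => ((Real.sin (v * t) : ℝ) : ℂ))
      ((Real.cos (v * t) * v : ℝ) : ℂ) t := fun t => (hvt t).sin.ofReal_comp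
  have hp : ∀ t, HasDerivAt (fun t => g t * ((Real.cos (v * t) : ℝ) : ℂ) -
      g' t / v * ((Real.sin (v * t) : ℝ) : ℂ)) 0 t := by
    intro t
    refine (((h1 t).mul (hcos t)).sub (((h2 t).div_const (v : ℂ)).mul (hsin t))).congr_deriv ?_
    push_cast
    field_simp
    ring
  have hq : ∀ t, HasDerivAt (fun t => g t * ((Real.sin (v * t) : ℝ) : ℂ) +
      g' t / v * ((Real.cos (v * t) : ℝ) : ℂ)) 0 t := by
    intro t
    refine (((h1 t).mul (hsin t)).add (((h2 t).div_const (v : ℂ)).mul (hcos t))).congr_deriv ?_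
    push_cast
    field_simp
    ring
  have hpc := is_const_of_deriv_eq_zero (fun t => (hp t).differentiableAt) (fun t => (hp t).deriv)
    T 0
  have hqc := is_const_of_deriv_eq_zero (fun t => (hq t).differentiableAt) (fun t => (hq t).deriv)
    T 0
  simp only [mul_zero, Real.cos_zero, Real.sin_zero, Complex.ofReal_one, Complex.ofReal_zero,
    mul_one, sub_zero, zero_add, h0, h0', zero_div] at hpc hqc
  have hcs : ((Real.sin (v * T) : ℝ) : ℂ) ^ 2 + ((Real.cos (v * T) : ℝ) : ℂ) ^ 2 = 1 := by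
    exact_mod_cast congrArg (fun x : ℝ => (x : ℂ)) (Real.sin_sq_add_cos_sq (v * T))
  have hg : g T = ((Real.cos (v * T) : ℝ) : ℂ) := by
    linear_combination ((Real.cos (v * T) : ℝ) : ℂ) * hpc + ((Real.sin (v * T) : ℝ) : ℂ) * hqc -
      g T * hcs
  have hc : |Real.cos (v * T)| = 1 := by
    rw [hg, Complex.norm_real, Real.norm_eq_abs] at hn
    exact hn
  have hs : Real.sin (v * T) = 0 := by
    have e1 := Real.sin_sq_add_cos_sq (v * T)
    have e2 : Real.cos (v * T) ^ 2 = 1 := by rw [← sq_abs, hc, one_pow]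
    have e3 : Real.sin (v * T) ^ 2 = 0 := by linarith
    exact pow_eq_zero_iff (two_ne_zero) |>.1 e3
  by_contra hlt
  push Not at hlt
  have := Real.sin_pos_of_pos_of_lt_pi (mul_pos hv hT) hlt
  linarith

lemma closure_aux {E : Type} [NormedAddCommGroup E] {F : ℝ → E} {s : ℝ → ℝ} {s' t : ℝ}
    (hF : Continuous F) (hs : HasDerivAt s s' t) (hs' : s' ≠ 0) (h : ∀ x, s x ≠ 0 → F x = 0) :
    F t = 0 := by
  have h1 : ∀ᶠ x in nhdsWithin t {t}ᶜ, s x ≠ 0 := hs.eventually_ne hs'
  have h2 : Filter.Tendsto F (nhdsWithin t {t}ᶜ) (nhds (F t)) :=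
    hF.continuousAt.tendsto.mono_left nhdsWithin_le_nhds
  have h3 : Filter.Tendsto F (nhdsWithin t {t}ᶜ) (nhds 0) :=
    tendsto_const_nhds.congr' (h1.mono fun x hx => (h x hx).symm)
  exact tendsto_nhds_unique h2 h3

theorem t_R : Pool.Agent.Helper60.CP.S_R := by
  intro n γ v T hv hT hγ hper
  obtain ⟨r, z, hr, hz, hnz, hγe, h1, h2, h3⟩ := hγ
  obtain ⟨hr1, hr2⟩ := cd2 hr
  obtain ⟨hz1, hz2⟩ := cd2 hz
  have harg : ∀ x : ℝ, π * x / (2 * (π / 2)) = x := fun x => by
    have := Real.pi_ne_zero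
    field_simp
  -- notation
  set S : ℝ → ℝ := fun t => Real.sin (r t) with hS
  set C : ℝ → ℝ := fun t => Real.cos (r t) with hC
  set r1 : ℝ → ℝ := deriv r with hr1d
  set r2 : ℝ → ℝ := deriv (deriv r) with hr2d
  set z1 : ℝ → Cn n := deriv z with hz1d
  set z2 : ℝ → Cn n := deriv (deriv z) with hz2d
  set a : ℝ → ℝ := fun t => eta (z t) (z1 t) with ha
  have hSC : ∀ t, S t ^ 2 + C t ^ 2 = 1 := fun t => Real.sin_sq_add_cos_sq (r t)
  have hSd : ∀ t, HasDerivAt S (C t * r1 t) t := fun t => (hr1 t).sin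
  have hCd : ∀ t, HasDerivAt C (-S t * r1 t) t := fun t => (hr1 t).cos
  have hzz : ∀ t, inner ℂ (z t) (z t) = (1 : ℂ) := by
    intro t
    rw [inner_self_eq_norm_sq_to_K, hnz t]
    simp
  -- `⟨z, z'⟩ = i a`
  have hzz1 : ∀ t, inner ℂ (z t) (z1 t) = (a t : ℂ) * Complex.I := by
    intro t
    have hd : HasDerivAt (fun t => inner ℂ (z t) (z t))
        (inner ℂ (z t) (z1 t) + inner ℂ (z1 t) (z t)) t := (hz1 t).inner ℂ (hz1 t)
    have hd0 : HasDerivAt (fun t => inner ℂ (z t) (z t)) (0 : ℂ) t := by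
      have : (fun t => inner ℂ (z t) (z t)) = fun _ => (1 : ℂ) := funext hzz
      rw [this]
      exact hasDerivAt_const t (1 : ℂ)
    have e := hd.unique hd0
    rw [← inner_conj_symm (z1 t) (z t)] at e
    have e2 := congrArg Complex.re e
    simp only [Complex.add_re, Complex.conj_re, Complex.zero_re] at e2
    apply Complex.ext
    · simp
      linarith
    · simp [ha, eta]
  have hz11 : ∀ t, inner ℂ (z1 t) (z1 t) = ((‖z1 t‖ ^ 2 : ℝ) : ℂ) := by
    intro t
    rw [inner_self_eq_norm_sq_to_K]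
    simp
  -- the derivative of `a`
  set a1 : ℝ → ℝ := fun t => (inner ℂ (z t) (z2 t)).im with ha1
  have had : ∀ t, HasDerivAt a (a1 t) t := by
    intro t
    have hd : HasDerivAt (fun t => inner ℂ (z t) (z1 t))
        (inner ℂ (z t) (z2 t) + inner ℂ (z1 t) (z1 t)) t := (hz1 t).inner ℂ (hz2 t)
    have hd2 := Complex.imCLM.hasFDerivAt.comp_hasDerivAt t hd
    refine hd2.congr_deriv ?_
    rw [hz11, map_add, Complex.imCLM_apply, Complex.imCLM_apply, Complex.ofReal_im, add_zero]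
  have hzz2 : ∀ t, inner ℂ (z t) (z2 t) = (a1 t : ℂ) * Complex.I - ((‖z1 t‖ ^ 2 : ℝ) : ℂ) := by
    intro t
    have hd : HasDerivAt (fun t => inner ℂ (z t) (z1 t))
        (inner ℂ (z t) (z2 t) + inner ℂ (z1 t) (z1 t)) t := (hz1 t).inner ℂ (hz2 t)
    have hd2 : HasDerivAt (fun t => inner ℂ (z t) (z1 t)) ((a1 t : ℂ) * Complex.I) t := by
      have : (fun t => inner ℂ (z t) (z1 t)) = fun t => (a t : ℂ) * Complex.I := funext hzz1
      rw [this]
      exact (had t).ofReal_comp.mul_const _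
    have e := hd.unique hd2
    rw [hz11] at e
    linear_combination e
  -- `b = Im ⟨Z, Z'⟩`
  set b : ℝ → ℝ := fun t => S t ^ 2 * a t with hb
  set b1 : ℝ → ℝ := fun t => 2 * S t * (C t * r1 t) * a t + S t ^ 2 * a1 t with hb1
  have hbd : ∀ t, HasDerivAt b (b1 t) t := by
    intro t
    refine (((hSd t).pow 2).mul (had t)).congr_deriv ?_
    simp only [hb1, Pi.pow_apply]
    norm_num
  -- the equations
  have hdf : ∀ t, deriv (fun r => Real.sin r * Real.cos r) (r t) = C t ^ 2 - S t ^ 2 := by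
    intro t
    have := ((Real.hasDerivAt_sin (r t)).mul (Real.hasDerivAt_cos (r t))).deriv
    have h : (fun r => Real.sin r * Real.cos r) = Real.sin * Real.cos := rfl
    rw [h, this]
    simp only [hS, hC]
    ring
  have e1 : ∀ t, r2 t = S t * C t * (C t ^ 2 - S t ^ 2) * a t ^ 2 +
      S t * C t * (‖z1 t‖ ^ 2 - a t ^ 2) := by
    intro t
    have := h1 t
    rw [hdf, Real.deriv_sin] at this
    exact this
  have e3 : ∀ t, r1 t ^ 2 + (S t * C t) ^ 2 * a t ^ 2 + S t ^ 2 * (‖z1 t‖ ^ 2 - a t ^ 2) = v ^ 2 := h3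
  -- the momentum
  have hmomd : ∀ t, HasDerivAt (mom (fun r => Real.sin r * Real.cos r) Real.sin r z)
      (((S t ^ 2 : ℝ) : ℂ) • z2 t + ((2 * S t * (C t * r1 t) : ℝ) : ℂ) • z1 t +
        (((-(S t ^ 2 * b t) : ℝ) : ℂ) • (Complex.I • z1 t) +
          ((-(2 * S t * (C t * r1 t) * b t + S t ^ 2 * b1 t) : ℝ) : ℂ) • (Complex.I • z t))) t := by
    intro t
    have hfun : mom (fun r => Real.sin r * Real.cos r) Real.sin r z = fun t =>
        ((S t ^ 2 : ℝ) : ℂ) • z1 t + ((-(S t ^ 2 * b t) : ℝ) : ℂ) • (Complex.I • z t) := by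
      funext t
      have e : ((Real.sin (r t) * Real.cos (r t)) ^ 2 - Real.sin (r t) ^ 2) * eta (z t) (z1 t) =
          -(S t ^ 2 * b t) := by
        have := hSC t
        simp only [hb, hS, hC, ha] at this ⊢
        linear_combination (Real.sin (r t) ^ 2 * eta (z t) (z1 t)) * this
      unfold mom
      rw [← hz1d, e]
    rw [hfun]
    have d1 : HasDerivAt (fun t => ((S t ^ 2 : ℝ) : ℂ)) ((2 * S t * (C t * r1 t) : ℝ) : ℂ) t := by
      have := ((hSd t).pow 2).ofReal_comp
      refine this.congr_deriv ?_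
      norm_num
    have d2 : HasDerivAt (fun t => ((-(S t ^ 2 * b t) : ℝ) : ℂ))
        ((-(2 * S t * (C t * r1 t) * b t + S t ^ 2 * b1 t) : ℝ) : ℂ) t := by
      have := ((((hSd t).pow 2).mul (hbd t)).neg).ofReal_comp
      refine this.congr_deriv ?_
      simp only [Pi.pow_apply]
      norm_num
    exact (d1.smul (hz2 t)).add (d2.smul ((hz1 t).const_smul Complex.I))
  have e2 : ∀ t, (b1 t = 2 * S t * (C t * r1 t) * b t + S t ^ 2 * b1 t) ∧
      ((S t ^ 2 : ℝ) : ℂ) • z2 t + ((2 * S t * (C t * r1 t) : ℝ) : ℂ) • z1 t +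
        ((-(2 * S t ^ 2 * b t) : ℝ) : ℂ) • (Complex.I • z1 t) =
      ((-(S t ^ 2 * ‖z1 t‖ ^ 2) + 2 * S t ^ 2 * b t * a t : ℝ) : ℂ) • z t +
        (b1 t : ℂ) • (Complex.I • z t) := by
    intro t
    obtain ⟨l, hl⟩ := h2 t
    rw [(hmomd t).deriv] at hl
    have e : ((Real.sin (r t) * Real.cos (r t)) ^ 2 - Real.sin (r t) ^ 2) * eta (z t) (z1 t) =
        -(S t ^ 2 * b t) := by
      have := hSC t
      simp only [hb, hS, hC, ha] at this ⊢
      linear_combination (Real.sin (r t) ^ 2 * eta (z t) (z1 t)) * this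
    beta_reduce at hl
    rw [e] at hl
    have hin := congrArg (fun x => inner ℂ (z t) x) hl
    simp only [inner_add_right, inner_smul_right, hzz, hzz1, hzz2] at hin
    have him : S t ^ 2 * a1 t + 2 * S t * (C t * r1 t) * a t -
        (2 * S t * (C t * r1 t) * b t + S t ^ 2 * b1 t) = 0 := by
      have := congrArg Complex.im hin
      simp [-Complex.ofReal_add, -Complex.ofReal_mul, -Complex.ofReal_pow, -Complex.ofReal_neg] at this
      linarith
    have hre : -(S t ^ 2 * ‖z1 t‖ ^ 2) + 2 * S t ^ 2 * b t * a t = l := by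
      have := congrArg Complex.re hin
      simp [-Complex.ofReal_add, -Complex.ofReal_mul, -Complex.ofReal_pow, -Complex.ofReal_neg] at this
      linarith
    have hB : b1 t = 2 * S t * (C t * r1 t) * b t + S t ^ 2 * b1 t := by
      simp only [hb1] at him ⊢
      linarith
    refine ⟨hB, ?_⟩
    rw [hre]
    have hB' : ((b1 t : ℝ) : ℂ) = ((2 * S t * (C t * r1 t) * b t + S t ^ 2 * b1 t : ℝ) : ℂ) := by
      rw [← hB]
    rw [hB', ← hl]
    push_cast
    module
  -- continuity
  have cr1 : Continuous r1 := continuous_iff_continuousAt.2 fun t => (hr2 t).continuousAt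
  have cr2 : Continuous r2 := by
    have h2' : ContDiff ℝ (1 + 1) r := by
      have : (1 + 1 : WithTop ℕ∞) = 2 := by norm_num
      rw [this]; exact hr
    have hr' : ContDiff ℝ 1 (deriv r) := (contDiff_succ_iff_deriv.1 h2').2.2
    exact hr'.continuous_deriv le_rfl
  have cz : Continuous z := hz.continuous
  have cz1 : Continuous z1 := continuous_iff_continuousAt.2 fun t => (hz2 t).continuousAt
  have cz2 : Continuous z2 := by
    have h2' : ContDiff ℝ (1 + 1) z := by
      have : (1 + 1 : WithTop ℕ∞) = 2 := by norm_num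
      rw [this]; exact hz
    have hr' : ContDiff ℝ 1 (deriv z) := (contDiff_succ_iff_deriv.1 h2').2.2
    exact hr'.continuous_deriv le_rfl
  have cS : Continuous S := continuous_iff_continuousAt.2 fun t => (hSd t).continuousAt
  have cC : Continuous C := continuous_iff_continuousAt.2 fun t => (hCd t).continuousAt
  have ca : Continuous a := continuous_iff_continuousAt.2 fun t => (had t).continuousAt
  have ca1 : Continuous a1 := Complex.continuous_im.comp (cz.inner cz2)
  have cb : Continuous b := continuous_iff_continuousAt.2 fun t => (hbd t).continuousAt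
  have cb1 : Continuous b1 := by
    simp only [hb1]
    fun_prop
  -- the first bracket
  have hJ : ∀ t, C t * (C t * b1 t - 2 * S t * r1 t * b t) = 0 := by
    intro t
    have := (e2 t).1
    have h := hSC t
    linear_combination this + b1 t * h
  have hbr : ∀ t, C t * b1 t - 2 * S t * r1 t * b t = 0 := by
    intro t
    by_cases hC0 : C t = 0
    · by_cases hr0 : r1 t = 0
      · rw [hC0, hr0]; ring
      · have hS0 : S t ≠ 0 := by
          intro h
          have := hSC t
          rw [h, hC0] at this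
          norm_num at this
        have hJd : ∀ x, HasDerivAt (fun x => C x ^ 2 * b x) 0 x := by
          intro x
          refine (((hCd x).pow 2).mul (hbd x)).congr_deriv ?_
          simp only [Pi.pow_apply]
          have := hJ x
          push_cast
          linear_combination this
        have hJc : ∀ x, C x ^ 2 * b x = 0 := by
          intro x
          have := is_const_of_deriv_eq_zero (fun t => (hJd t).differentiableAt)
            (fun t => (hJd t).deriv) x t
          rw [this, hC0]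
          ring
        have hbt : b t = 0 := closure_aux cb (hCd t) (mul_ne_zero (neg_ne_zero.2 hS0) hr0)
          fun x hx => by
            rcases mul_eq_zero.1 (hJc x) with h | h
            · exact absurd (pow_eq_zero_iff (two_ne_zero) |>.1 h) hx
            · exact h
        rw [hC0, hbt]; ring
    · rcases mul_eq_zero.1 (hJ t) with h | h
      · exact absurd h hC0
      · exact h
  -- the second bracket
  set F : ℝ → Cn n := fun t =>
    ((-S t * r1 t ^ 2 + C t * r2 t - b t ^ 2 * S t + v ^ 2 * S t : ℝ) : ℂ) • z t -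
      ((2 * b t * C t * r1 t + b1 t * S t : ℝ) : ℂ) • (Complex.I • z t) +
      ((2 * C t * r1 t : ℝ) : ℂ) • z1 t - ((2 * b t * S t : ℝ) : ℂ) • (Complex.I • z1 t) +
      (S t : ℂ) • z2 t with hFd
  have cF : Continuous F := by
    simp only [hFd]
    fun_prop
  have hSF : ∀ t, (S t : ℂ) • F t = 0 := by
    intro t
    obtain ⟨hB, e⟩ := e2 t
    have hco : -S t ^ 2 * r1 t ^ 2 + S t * C t * r2 t - b t ^ 2 * S t ^ 2 + v ^ 2 * S t ^ 2 +
        (-(S t ^ 2 * ‖z1 t‖ ^ 2) + 2 * S t ^ 2 * b t * a t) = 0 := by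
      rw [e1, ← e3 t]
      simp only [hb]
      linear_combination (‖z1 t‖ ^ 2 * S t ^ 2 + a t ^ 2 * S t ^ 2 * (C t ^ 2 - S t ^ 2)) * (hSC t)
    have hco' : ((-S t ^ 2 * r1 t ^ 2 + S t * C t * r2 t - b t ^ 2 * S t ^ 2 + v ^ 2 * S t ^ 2 +
        (-(S t ^ 2 * ‖z1 t‖ ^ 2) + 2 * S t ^ 2 * b t * a t) : ℝ) : ℂ) = 0 := by
      rw [hco, Complex.ofReal_zero]
    have hB' : ((b1 t : ℝ) : ℂ) - ((2 * S t * (C t * r1 t) * b t + S t ^ 2 * b1 t : ℝ) : ℂ) = 0 := by
      rw [← hB, sub_self]
    have g1 : (S t : ℂ) • F t = ((((S t ^ 2 : ℝ) : ℂ) • z2 t +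
        ((2 * S t * (C t * r1 t) : ℝ) : ℂ) • z1 t +
        ((-(2 * S t ^ 2 * b t) : ℝ) : ℂ) • (Complex.I • z1 t)) -
        (((-(S t ^ 2 * ‖z1 t‖ ^ 2) + 2 * S t ^ 2 * b t * a t : ℝ) : ℂ) • z t +
        (b1 t : ℂ) • (Complex.I • z t))) +
        ((-S t ^ 2 * r1 t ^ 2 + S t * C t * r2 t - b t ^ 2 * S t ^ 2 + v ^ 2 * S t ^ 2 +
        (-(S t ^ 2 * ‖z1 t‖ ^ 2) + 2 * S t ^ 2 * b t * a t) : ℝ) : ℂ) • z t +
        (((b1 t : ℝ) : ℂ) - ((2 * S t * (C t * r1 t) * b t + S t ^ 2 * b1 t : ℝ) : ℂ)) •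
          (Complex.I • z t) := by
      simp only [hFd]
      push_cast
      module
    rw [g1, e, hco', hB']
    simp
  have hF : ∀ t, F t = 0 := by
    intro t
    by_cases hS0 : S t = 0
    · have hC0 : C t ≠ 0 := by
        intro h
        have := hSC t
        rw [h, hS0] at this
        norm_num at this
      have hr0 : r1 t ≠ 0 := by
        intro h
        have := e3 t
        rw [h, hS0] at this
        have : v ^ 2 = 0 := by rw [← this]; ring
        exact hv.ne' (pow_eq_zero_iff (two_ne_zero) |>.1 this)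
      refine closure_aux cF (hSd t) (mul_ne_zero hC0 hr0) fun x hx => ?_
      rcases smul_eq_zero.1 (hSF x) with h | h
      · exact absurd (Complex.ofReal_eq_zero.1 h) hx
      · exact h
    · rcases smul_eq_zero.1 (hSF t) with h | h
      · exact absurd (Complex.ofReal_eq_zero.1 h) hS0
      · exact h
  -- the function `W = ⟨Z(0), Z⟩`
  set x0 : Cn n := (S 0 : ℂ) • z 0 with hx0
  have hX1 : ∀ t, HasDerivAt (fun t => (S t : ℂ) • z t)
      ((S t : ℂ) • z1 t + ((C t * r1 t : ℝ) : ℂ) • z t) t := fun t =>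
    (hSd t).ofReal_comp.smul (hz1 t)
  have hX2 : ∀ t, HasDerivAt (fun t => (S t : ℂ) • z1 t + ((C t * r1 t : ℝ) : ℂ) • z t)
      (((S t : ℂ) • z2 t + ((C t * r1 t : ℝ) : ℂ) • z1 t) +
        (((C t * r1 t : ℝ) : ℂ) • z1 t +
          ((-S t * r1 t * r1 t + C t * r2 t : ℝ) : ℂ) • z t)) t := fun t =>
    ((hSd t).ofReal_comp.smul (hz2 t)).add
      (((hCd t).mul (hr2 t)).ofReal_comp.smul (hz1 t))
  set W : ℝ → ℂ := fun t => ((C 0 * C t : ℝ) : ℂ) + inner ℂ x0 ((S t : ℂ) • z t) with hWd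
  set W1 : ℝ → ℂ := fun t => ((C 0 * (-S t * r1 t) : ℝ) : ℂ) +
    inner ℂ x0 ((S t : ℂ) • z1 t + ((C t * r1 t : ℝ) : ℂ) • z t) with hW1d
  have hW1 : ∀ t, HasDerivAt W (W1 t) t := by
    intro t
    have d1 : HasDerivAt (fun t => ((C 0 * C t : ℝ) : ℂ)) ((C 0 * (-S t * r1 t) : ℝ) : ℂ) t :=
      ((hCd t).const_mul (C 0)).ofReal_comp
    have d2 := (hasDerivAt_const t x0).inner ℂ (hX1 t)
    rw [inner_zero_left, add_zero] at d2
    exact d1.add d2
  have hW2 : ∀ t, HasDerivAt W1 (2 * Complex.I * b t * W1 t +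
      (Complex.I * b1 t + (b t : ℂ) ^ 2 - (v : ℂ) ^ 2) * W t) t := by
    intro t
    have d1 : HasDerivAt (fun t => ((C 0 * (-S t * r1 t) : ℝ) : ℂ))
        ((C 0 * (-(C t * r1 t) * r1 t + -S t * r2 t) : ℝ) : ℂ) t :=
      ((((hSd t).neg).mul (hr2 t)).const_mul (C 0)).ofReal_comp
    have d2 := (hasDerivAt_const t x0).inner ℂ (hX2 t)
    rw [inner_zero_left, add_zero] at d2
    refine (d1.add d2).congr_deriv ?_
    have hf : inner ℂ x0 (F t) = (0 : ℂ) := by rw [hF t, inner_zero_right]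
    simp only [hFd, inner_add_right, inner_sub_right, inner_smul_right] at hf
    have hR : -(C t * r1 t) * r1 t + -S t * r2 t = b t ^ 2 * C t - v ^ 2 * C t := by
      rw [e1, ← e3 t]
      simp only [hb]
      ring
    have hR' := congrArg (fun x : ℝ => (x : ℂ)) hR
    have hbr' := congrArg (fun x : ℝ => (x : ℂ)) (hbr t)
    simp only [hWd, hW1d, inner_add_right, inner_smul_right]
    push_cast at hf hR' hbr' ⊢
    linear_combination (C 0 : ℂ) * hR' + hf - Complex.I * (C 0 : ℂ) * hbr'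
  -- the horizontal lift
  set φ : ℝ → ℝ := fun t => ∫ x in (0 : ℝ)..t, b x with hφ
  have hφd : ∀ t, HasDerivAt φ (b t) t := fun t =>
    (cb.integral_hasStrictDerivAt 0 t).hasDerivAt
  set E : ℝ → ℂ := fun t => Complex.exp (-(φ t : ℂ) * Complex.I) with hE
  have hEd : ∀ t, HasDerivAt E (E t * (-(b t : ℂ) * Complex.I)) t := fun t =>
    ((hφd t).ofReal_comp.neg.mul_const Complex.I).cexp
  have hE0 : E 0 = 1 := by
    simp only [hE, hφ, intervalIntegral.integral_same]
    simp
  have hEn : ∀ t, ‖E t‖ = 1 := by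
    intro t
    have : -(φ t : ℂ) * Complex.I = ((-φ t : ℝ) : ℂ) * Complex.I := by push_cast; ring
    simp only [hE]
    rw [this, Complex.norm_exp_ofReal_mul_I]
  have hx00 : inner ℂ x0 x0 = ((S 0 ^ 2 : ℝ) : ℂ) := by
    rw [hx0, inner_smul_left, inner_smul_right, hzz, Complex.conj_ofReal]
    push_cast
    ring
  have hSC0 : (S 0 : ℂ) ^ 2 + (C 0 : ℂ) ^ 2 = 1 := by
    exact_mod_cast congrArg (fun x : ℝ => (x : ℂ)) (hSC 0)
  have hW0 : W 0 = 1 := by
    simp only [hWd]
    rw [← hx0, hx00]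
    push_cast
    linear_combination hSC0
  have hW10 : W1 0 = Complex.I * b 0 := by
    simp only [hW1d, hx0, inner_add_right, inner_smul_right, inner_smul_left, hzz, hzz1,
      Complex.conj_ofReal, hb]
    push_cast
    ring
  -- the period
  have hsp : vec (π / 2) (r T) (z T) ∈ Submodule.span ℂ {vec (π / 2) (r 0) (z 0)} := by
    rw [← hγe 0, ← hper 0, zero_add, hγe T]
    exact Submodule.mem_span_singleton_self _
  obtain ⟨c, hc⟩ := Submodule.mem_span_singleton.1 hsp
  have hc1 : c * (C 0 : ℂ) = C T := by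
    have := congrArg Prod.fst hc
    simpa only [vec, harg, Prod.smul_fst, smul_eq_mul] using this
  have hc2 : c • x0 = (S T : ℂ) • z T := by
    have := congrArg Prod.snd hc
    simpa only [vec, harg, Prod.smul_snd] using this
  have hcn : ‖c‖ = 1 := by
    have g1 : ‖c‖ * |C 0| = |C T| := by
      have := congrArg norm hc1
      simpa only [norm_mul, Complex.norm_real, Real.norm_eq_abs] using this
    have g2 : ‖c‖ * |S 0| = |S T| := by
      have := congrArg norm hc2
      simpa only [hx0, norm_smul, hnz, mul_one, Complex.norm_real, Real.norm_eq_abs] using this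
    have g3 : ‖c‖ ^ 2 = 1 := by
      have k1 : ‖c‖ ^ 2 * C 0 ^ 2 = C T ^ 2 := by
        rw [← sq_abs (C 0), ← sq_abs (C T), ← g1]; ring
      have k2 : ‖c‖ ^ 2 * S 0 ^ 2 = S T ^ 2 := by
        rw [← sq_abs (S 0), ← sq_abs (S T), ← g2]; ring
      have k3 := hSC 0
      have k4 := hSC T
      linear_combination k1 + k2 + k4 - ‖c‖ ^ 2 * k3
    have := norm_nonneg c
    nlinarith
  have hWT : W T = c := by
    simp only [hWd]
    rw [← hc2, inner_smul_right, hx00]
    push_cast
    linear_combination c * hSC0 - (C 0 : ℂ) * hc1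
  refine osc_end hv hT (g := fun t => E t * W t)
    (g' := fun t => E t * (W1 t - Complex.I * b t * W t)) ?_ ?_ ?_ ?_ ?_
  · intro t
    refine ((hEd t).mul (hW1 t)).congr_deriv ?_
    ring
  · intro t
    have d := (hEd t).mul ((hW2 t).sub ((((hbd t).ofReal_comp).const_mul Complex.I).mul (hW1 t)))
    refine d.congr_deriv ?_
    have hI : Complex.I * Complex.I = -1 := Complex.I_mul_I
    simp only [Pi.sub_apply, Pi.mul_apply]
    linear_combination (E t * (b t : ℂ) ^ 2 * W t) * hI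
  · simp only [hE0, hW0, one_mul]
  · simp only [hE0, hW0, hW10]
    ring
  · simp only [norm_mul, hEn, hWT, hcn, one_mul]

end Pool.Agent.Helper65.CPR
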