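import Pool.Agent.Helper59.CPS.V
import Pool.Agent.Helper60.CP.Stm5

/-!
# The volume bound for the octonionic case of `S^16` (part 6V)

Adapted from `Pool.Agent.Helper59.CPS.V` (the case of `S^(2n)`).
-/

set_option autoImplicit false

open Real Set MeasureTheory
open scoped ContDiff

namespace Pool.Agent.Helper65.CPR

open Pool.Agent.Helper60.CP
open Pool.Agent.Helper59.CPS
open Pool.Agent.H206R2.Rot2 (Veff)
open Pool.Agent.H206R2.Rot2.TI (gg gg_measurable gg_nonneg gg_bound gg_integrable gg_integral SC SC_one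
  SC_left beta_id)

lemma ind_integrable6 (s : ℝ) :
    Integrable ((Dsk s).indicator (fun c : ℝ × ℝ => c.1 ^ 6 * c.2 ^ 7)) := by
  rw [integrable_indicator_iff (Dsk_measurable s)]
  have h1 : IntegrableOn (fun c : ℝ × ℝ => c.1 ^ 6 * c.2 ^ 7) (Icc (0 : ℝ) s ×ˢ Icc (0 : ℝ) s) :=
    (Continuous.continuousOn (by fun_prop)).integrableOn_compact (isCompact_Icc.prod isCompact_Icc)
  exact h1.mono_set (Dsk_subset_Icc s)

lemma inner_dsk6 {s : ℝ} (hs : 0 < s) (x : ℝ) :
    ∫ y, (Dsk s).indicator (fun c : ℝ × ℝ => c.1 ^ 6 * c.2 ^ 7) (x, y) =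
      (Ioo 0 s).indicator (fun x => x ^ 6 * (s ^ 2 - x ^ 2) ^ 4 / 8) x := by
  have e : (fun y : ℝ => (Dsk s).indicator (fun c : ℝ × ℝ => c.1 ^ 6 * c.2 ^ 7) (x, y)) =
      fun y => x ^ 6 * (Dsk s).indicator (fun c : ℝ × ℝ => c.2 ^ (2 * 3 + 1)) (x, y) := by
    funext y
    by_cases h : (x, y) ∈ Dsk s
    · rw [indicator_of_mem h, indicator_of_mem h]
    · rw [indicator_of_notMem h, indicator_of_notMem h, mul_zero]
  rw [e, integral_const_mul, inner_dsk hs 3 x]
  by_cases hx : x ∈ Ioo 0 s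
  · rw [indicator_of_mem hx, indicator_of_mem hx]
    push_cast
    ring
  · rw [indicator_of_notMem hx, indicator_of_notMem hx, mul_zero]

lemma scale_int6 (s : ℝ) :
    ∫ x in (0 : ℝ)..s, x ^ 6 * (s ^ 2 - x ^ 2) ^ 4 = s ^ 15 * (128 / 45045) := by
  have e : (fun x : ℝ => x ^ 6 * (s ^ 2 - x ^ 2) ^ 4) = fun x =>
      s ^ 8 * x ^ 6 - 4 * s ^ 6 * x ^ 8 + 6 * s ^ 4 * x ^ 10 - 4 * s ^ 2 * x ^ 12 + x ^ 14 := by
    funext x
    ring
  rw [e, intervalIntegral.integral_add (Continuous.intervalIntegrable (by fun_prop) _ _)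
    (Continuous.intervalIntegrable (by fun_prop) _ _),
    intervalIntegral.integral_sub (Continuous.intervalIntegrable (by fun_prop) _ _)
    (Continuous.intervalIntegrable (by fun_prop) _ _),
    intervalIntegral.integral_add (Continuous.intervalIntegrable (by fun_prop) _ _)
    (Continuous.intervalIntegrable (by fun_prop) _ _),
    intervalIntegral.integral_sub (Continuous.intervalIntegrable (by fun_prop) _ _)
    (Continuous.intervalIntegrable (by fun_prop) _ _),
    intervalIntegral.integral_const_mul, intervalIntegral.integral_const_mul,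
    intervalIntegral.integral_const_mul, intervalIntegral.integral_const_mul,
    integral_pow, integral_pow, integral_pow, integral_pow, integral_pow]
  norm_num
  ring

lemma Dsk_int6 {s : ℝ} (hs : 0 < s) :
    ∫ c in Dsk s, c.1 ^ 6 * c.2 ^ 7 = s ^ 15 * (16 / 45045) := by
  rw [← integral_indicator (Dsk_measurable s)]
  have hi := ind_integrable6 s
  rw [Measure.volume_eq_prod] at hi ⊢
  rw [integral_prod _ hi]
  simp_rw [inner_dsk6 hs]
  rw [integral_indicator measurableSet_Ioo, ← integral_Ioc_eq_integral_Ioo,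
    ← intervalIntegral.integral_of_le (by positivity), intervalIntegral.integral_div,
    scale_int6 s]
  ring

lemma W15 : ∫ t in (0 : ℝ)..π, Real.sin t ^ 15 = 4096 / 6435 := by
  have h := integral_sin_pow_odd 7
  norm_num [Finset.prod_range_succ] at h
  exact h

/-- The integral of `(R - K) c₁⁶ c₂⁷` over the quarter disk. -/
lemma lower_intD6 {R : ℝ} (hR : 0 < R) :
    ∫ c in Dsk R, (R - KK c) * (c.1 ^ 6 * c.2 ^ 7) =
      R ^ 16 / 45045 := by
  set G : ℝ → ℝ × ℝ → ℝ := fun s c => (Dsk s).indicator (fun c : ℝ × ℝ => c.1 ^ 6 * c.2 ^ 7) c with hG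
  -- layer cake
  have e1 : ∀ c ∈ Dsk R, ∫ s in Ioo 0 R, G s c = (R - KK c) * (c.1 ^ 6 * c.2 ^ 7) := by
    intro c hc
    have hk : 0 ≤ KK c := KK_nonneg c
    have e2 : ∀ s : ℝ, G s c = (Ioi (KK c)).indicator (fun _ => c.1 ^ 6 * c.2 ^ 7) s := by
      intro s
      simp only [hG]
      by_cases h : KK c < s
      · rw [indicator_of_mem (show c ∈ Dsk s from ⟨hc.1, hc.2.1, h⟩), indicator_of_mem (mem_Ioi.2 h)]
      · rw [indicator_of_notMem (fun h' : c ∈ Dsk s => h h'.2.2), indicator_of_notMem (fun h' => h (mem_Ioi.1 h'))]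
    simp_rw [e2]
    rw [setIntegral_indicator measurableSet_Ioi]
    have e3 : Ioo 0 R ∩ Ioi (KK c) = Ioo (KK c) R := by
      ext x
      simp only [mem_inter_iff, mem_Ioo, mem_Ioi]
      constructor
      · rintro ⟨⟨_, h2⟩, h3⟩
        exact ⟨h3, h2⟩
      · rintro ⟨h1, h2⟩
        exact ⟨⟨lt_of_le_of_lt hk h1, h2⟩, h1⟩
    rw [e3, setIntegral_const, Real.volume_real_Ioo_of_le hc.2.2.le, smul_eq_mul]
  have hmeas : Measurable (fun p : (ℝ × ℝ) × ℝ => G p.2 p.1) := by
    have e4 : (fun p : (ℝ × ℝ) × ℝ => G p.2 p.1) =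
        ({p : (ℝ × ℝ) × ℝ | 0 < p.1.1 ∧ 0 < p.1.2 ∧ KK p.1 < p.2}).indicator
          (fun p => p.1.1 ^ 6 * p.1.2 ^ 7) := by
      funext p
      simp only [hG]
      by_cases h : p.1 ∈ Dsk p.2
      · rw [indicator_of_mem h, indicator_of_mem (show p ∈ {p : (ℝ × ℝ) × ℝ | 0 < p.1.1 ∧ 0 < p.1.2 ∧
          KK p.1 < p.2} from h)]
      · rw [indicator_of_notMem h, indicator_of_notMem (show p ∉ {p : (ℝ × ℝ) × ℝ | 0 < p.1.1 ∧ 0 < p.1.2 ∧
          KK p.1 < p.2} from h)]
    rw [e4]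
    apply Measurable.indicator (by fun_prop)
    have o1 : IsOpen {p : (ℝ × ℝ) × ℝ | 0 < p.1.1} := isOpen_lt continuous_const (by fun_prop)
    have o2 : IsOpen {p : (ℝ × ℝ) × ℝ | 0 < p.1.2} := isOpen_lt continuous_const (by fun_prop)
    have o3 : IsOpen {p : (ℝ × ℝ) × ℝ | KK p.1 < p.2} :=
      isOpen_lt (KK_cont.comp continuous_fst) (by fun_prop)
    exact (o1.inter (o2.inter o3)).measurableSet
  set μ : Measure ℝ := volume.restrict (Ioo 0 R) with hμ
  set ν : Measure (ℝ × ℝ) := volume.restrict (Dsk R) with hν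
  have : IsFiniteMeasure ν := ⟨by rw [hν, Measure.restrict_apply_univ]; exact lt_top_iff_ne_top.2 (Dsk_finite R)⟩
  have : IsFiniteMeasure μ := ⟨by rw [hμ, Measure.restrict_apply_univ]; simp⟩
  have hint : Integrable (fun p : (ℝ × ℝ) × ℝ => G p.2 p.1) (ν.prod μ) := by
    have hb : ∀ᵐ p ∂(ν.prod μ), ‖G p.2 p.1‖ ≤ R ^ 6 * R ^ 7 := by
      have e : ν.prod μ = (volume.prod volume).restrict (Dsk R ×ˢ Ioo 0 R) := by
        rw [hμ, hν, Measure.prod_restrict]
      rw [e]
      filter_upwards [ae_restrict_mem ((Dsk_measurable R).prod measurableSet_Ioo)] with p hp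
      have h1 := (Dsk_subset_Icc R) hp.1
      simp only [hG]
      by_cases h : p.1 ∈ Dsk p.2
      · rw [indicator_of_mem h, Real.norm_eq_abs,
          abs_of_nonneg (mul_nonneg (pow_nonneg h1.1.1 _) (pow_nonneg h1.2.1 _))]
        exact mul_le_mul (pow_le_pow_left₀ h1.1.1 h1.1.2 _) (pow_le_pow_left₀ h1.2.1 h1.2.2 _)
          (pow_nonneg h1.2.1 _) (by positivity)
      · rw [indicator_of_notMem h, norm_zero]
        positivity
    exact Integrable.of_bound hmeas.aestronglyMeasurable _ hb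
  have hswap := integral_integral_swap (f := fun c s => G s c) (μ := ν) (ν := μ) hint
  have e5 : ∫ c in Dsk R, (R - KK c) * (c.1 ^ 6 * c.2 ^ 7) = ∫ c, ∫ s, G s c ∂μ ∂ν := by
    rw [hν]
    apply setIntegral_congr_fun (Dsk_measurable R)
    intro c hc
    exact (e1 c hc).symm
  rw [e5, hswap]
  have e6 : ∫ s, ∫ c, G s c ∂ν ∂μ =
      ∫ s in Ioo 0 R, s ^ 15 * (16 / 45045) := by
    rw [hμ]
    apply setIntegral_congr_fun measurableSet_Ioo
    intro s hs
    simp only [hG]
    rw [hν, setIntegral_indicator (Dsk_measurable s)]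
    have e7 : Dsk R ∩ Dsk s = Dsk s := by
      apply inter_eq_right.2
      intro c hc
      exact ⟨hc.1, hc.2.1, hc.2.2.trans hs.2⟩
    rw [e7, Dsk_int6 hs.1]
  rw [e6, ← integral_Ioc_eq_integral_Ioo, ← intervalIntegral.integral_of_le hR.le,
    intervalIntegral.integral_mul_const, integral_pow]
  norm_num
  ring

/-! ### The theorem -/

theorem t_6V : S6_V := by
  intro L R f h hL hR hfc hhc hfpos hhpos hbig hA
  rw [W15]
  have hfm : Measurable f := hfc.measurable
  have hhm : Measurable h := hhc.measurable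
  set J1 := ∫ x in (0 : ℝ)..1, √(1 - x ^ 2) * x ^ 7 with hJ1
  set K := J1 * SC 6 10 with hK
  set μ : Measure ℝ := volume.restrict (Ioo 0 L) with hμ
  set ν : Measure (ℝ × ℝ) := volume.restrict (Dsk R) with hν
  have : IsFiniteMeasure ν := ⟨by rw [hν, Measure.restrict_apply_univ]; exact lt_top_iff_ne_top.2 (Dsk_finite R)⟩
  have : IsFiniteMeasure μ := ⟨by rw [hμ, Measure.restrict_apply_univ]; simp⟩
  -- Fubini
  have hmeas : Measurable (fun p : ℝ × (ℝ × ℝ) => gg (f p.1) (h p.1) 6 7 p.2) := by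
    unfold gg
    fun_prop
  have hint : Integrable (fun p : ℝ × (ℝ × ℝ) => gg (f p.1) (h p.1) 6 7 p.2) (μ.prod ν) := by
    have hb : ∀ᵐ p ∂(μ.prod ν), ‖gg (f p.1) (h p.1) 6 7 p.2‖ ≤ R ^ 6 * R ^ 7 := by
      have e : μ.prod ν = (volume.prod volume).restrict (Ioo 0 L ×ˢ Dsk R) := by
        rw [hμ, hν, Measure.prod_restrict]
      rw [e]
      filter_upwards [ae_restrict_mem (measurableSet_Ioo.prod (Dsk_measurable R))] with p hp
      have h1 := (Dsk_subset_Icc R) hp.2
      exact gg_bound 6 7 hp.2.1 hp.2.2.1 h1.1.2 h1.2.2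
    exact Integrable.of_bound hmeas.aestronglyMeasurable _ hb
  have hswap := integral_integral_swap (f := fun r c => gg (f r) (h r) 6 7 c) (μ := μ) (ν := ν) hint
  -- lower bound
  have hact : ∀ c : ℝ × ℝ, (2 * ∫ r in Ioo 0 L, √(1 - Veff f h c.1 c.2 r)) * (c.1 ^ 6 * c.2 ^ 7) =
      2 * ∫ r, gg (f r) (h r) 6 7 c ∂μ := by
    intro c
    rw [mul_assoc, ← integral_mul_const]
    rfl
  have h1 : 2 * π * (R ^ 16 / 45045) ≤
      2 * ∫ c, ∫ r, gg (f r) (h r) 6 7 c ∂μ ∂ν := by
    rw [← lower_intD6 hR, ← integral_const_mul, ← integral_const_mul]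
    apply setIntegral_mono_on _ _ (Dsk_measurable R)
    · intro c hc
      rw [← hact]
      have h2 : 2 * π * ((R - KK c) * (c.1 ^ 6 * c.2 ^ 7)) =
          2 * π * (R - KK c) * (c.1 ^ 6 * c.2 ^ 7) := by ring
      rw [h2]
      apply mul_le_mul_of_nonneg_right (hA c hc)
      have := hc.1
      have := hc.2.1
      positivity
    · have hKc := KK_cont
      have h2 : IntegrableOn (fun c : ℝ × ℝ => 2 * π * ((R - KK c) * (c.1 ^ 6 * c.2 ^ 7)))
          (Icc (0 : ℝ) R ×ˢ Icc (0 : ℝ) R) :=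
        (Continuous.continuousOn (by fun_prop)).integrableOn_compact (isCompact_Icc.prod isCompact_Icc)
      exact h2.mono_set (Dsk_subset_Icc R)
    · exact (hint.integral_prod_right).const_mul 2
  rw [← hswap] at h1
  -- comparison
  have hIm : Integrable (fun r => ∫ c, gg (f r) (h r) 6 7 c ∂ν) μ := hint.integral_prod_left
  have hfi : Integrable (fun r => f r ^ (6 + 1) * h r ^ (7 + 1) * K) μ := by
    have h3 : IntegrableOn (fun r => f r ^ (6 + 1) * h r ^ (7 + 1) * K) (Icc 0 L) :=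
      (Continuous.continuousOn (by fun_prop)).integrableOn_Icc
    exact h3.mono_set Ioo_subset_Icc_self
  have h3 : ∫ r, ∫ c, gg (f r) (h r) 6 7 c ∂ν ∂μ < ∫ r, f r ^ (6 + 1) * h r ^ (7 + 1) * K ∂μ := by
    rw [← sub_pos, ← integral_sub hfi hIm]
    rw [integral_pos_iff_support_of_nonneg_ae]
    · obtain ⟨r₀, ⟨hr0, hrL⟩, hrR⟩ := hbig
      have hopen : IsOpen (Ioo 0 L ∩ {r | R < h r}) := isOpen_Ioo.inter (isOpen_lt continuous_const hhc)
      have hpos : 0 < volume (Ioo 0 L ∩ {r | R < h r}) :=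
        hopen.measure_pos volume ⟨r₀, ⟨hr0, hrL⟩, hrR⟩
      have hμpos : 0 < μ (Ioo 0 L ∩ {r | R < h r}) := by
        rw [hμ, Measure.restrict_apply hopen.measurableSet]
        have : Ioo 0 L ∩ {r | R < h r} ∩ Ioo 0 L = Ioo 0 L ∩ {r | R < h r} := by
          ext x; simp; tauto
        rwa [this]
      refine hμpos.trans_le (measure_mono ?_)
      intro r hr
      rw [Function.mem_support]
      have h5 := ggD_lt (hfpos r hr.1) (hR.trans hr.2) hR hr.2 6 7
      exact (sub_pos.mpr h5).ne'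
    · have hae : ∀ᵐ r ∂μ, r ∈ Ioo 0 L := ae_restrict_mem measurableSet_Ioo
      filter_upwards [hae] with r hr
      have h5 := ggD_le (R := R) (hfpos r hr) (hhpos r hr) 6 7
      simp only [Pi.zero_apply]
      exact sub_nonneg.2 h5
    · exact hfi.sub hIm
  have h4 : ∫ r, f r ^ (6 + 1) * h r ^ (7 + 1) * K ∂μ = K * ∫ r in (0 : ℝ)..L, f r ^ 7 * h r ^ 8 := by
    rw [integral_mul_const, intervalIntegral.integral_of_le hL.le, hμ,
      integral_Ioc_eq_integral_Ioo, mul_comm]
  -- constants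
  have hid := beta_id 6 7
  have hB : J1 = (1 / (((7 : ℕ) : ℝ) + 2)) * ∫ x in (0 : ℝ)..(π / 2), Real.sin x ^ 7 :=
    Pool.Agent.H206R2.Rot.TE.B_eq 7
  have hSC7 : SC 7 8 = 16 / 6435 := by
    have h5 := SC_left 5 8
    have h6 := SC_left 3 8
    have h7 := SC_left 1 8
    rw [SC_one] at h7
    norm_num at h5 h6 h7
    linarith
  rw [← hB] at hid
  have hKv : 2 * K = π / 14336 := by
    have h5 : (2 * (J1 * SC 6 10)) * SC 7 8 = π * (720 : ℝ) * 5040 / 20922789888000 := by
      have h6 : ((6 + 7 + 3).factorial : ℝ) = 20922789888000 := by norm_num [Nat.factorial]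
      have h7 : ((6).factorial : ℝ) = 720 := by norm_num [Nat.factorial]
      have h8 : ((7).factorial : ℝ) = 5040 := by norm_num [Nat.factorial]
      rw [h6, h7, h8] at hid
      exact hid
    rw [hSC7, ← hK] at h5
    linarith
  have hπ := Real.pi_pos
  have hKpos : 0 < K := by
    have : 0 < 2 * K := by rw [hKv]; positivity
    linarith
  rw [h4] at h3
  set I := ∫ r in (0 : ℝ)..L, f r ^ 7 * h r ^ 8 with hI
  have h7 : 2 * π * (R ^ 16 / 45045) < 2 * K * I := by
    calc _ ≤ _ := h1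
      _ < 2 * (K * I) := by linarith
      _ = _ := by ring
  rw [hKv] at h7
  have h8 : (0 : ℝ) < π / 14336 := by positivity
  have h9 : π / 14336 * (R ^ 16 * (4096 / 6435)) < π / 14336 * I := by
    calc _ = 2 * π * (R ^ 16 / 45045) := by ring
      _ < π / 14336 * I := h7
  exact lt_of_mul_lt_mul_left h9 h8.le

end Pool.Agent.Helper65.CPR
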